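import Pool.Agent.U174.AK.Stm

/-!
# Project AK (helper174), package URES (helper364): residue field and value group of the ultrapower
-/

set_option autoImplicit false

namespace Pool.Agent.U364.AK

open IsLocalRing Polynomial Filter Pool.Agent.U174.AK

section one
variable {K : Type} [Field K] (O : ValuationSubring K)

theorem le_iff_exists (a b : K) : O.valuation a ≤ O.valuation b ↔ ∃ c, c ∈ O ∧ a = c * b := by
  constructor
  · intro h
    by_cases hb : b = 0
    · subst hb
      rw [map_zero, le_zero_iff, Valuation.zero_iff] at h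
      exact ⟨0, O.zero_mem, by rw [h, zero_mul]⟩
    · refine ⟨a / b, ?_, by field_simp⟩
      rw [← ValuationSubring.valuation_le_one_iff, map_div₀]
      exact (div_le_one₀ (zero_lt_iff.mpr ((Valuation.ne_zero_iff _).mpr hb))).2 h
  · rintro ⟨c, hc, rfl⟩
    rw [map_mul]
    exact mul_le_of_le_one_left' ((O.valuation_le_one_iff c).2 hc)

theorem rs_of_mem {a : K} (h : a ∈ O) : rs O a = residue O ⟨a, h⟩ := dif_pos h

theorem rs_zero_iff (a : K) : rs O a = 0 ↔ O.valuation a ≠ 1 := by
  by_cases h : a ∈ O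
  · rw [rs_of_mem O h, residue_eq_zero_iff, ValuationSubring.valuation_lt_one_iff]
    exact ⟨fun h1 => ne_of_lt h1, fun h1 => lt_of_le_of_ne ((O.valuation_le_one_iff a).2 h) h1⟩
  · have h1 : rs O a = 0 := dif_neg h
    refine ⟨fun _ h2 => h ((O.valuation_le_one_iff a).1 h2.le), fun _ => h1⟩

theorem rs_add {a b : K} (ha : a ∈ O) (hb : b ∈ O) : rs O (a + b) = rs O a + rs O b := by
  rw [rs_of_mem O ha, rs_of_mem O hb, rs_of_mem O (O.add_mem _ _ ha hb), ← map_add]
  rfl

theorem rs_mul {a b : K} (ha : a ∈ O) (hb : b ∈ O) : rs O (a * b) = rs O a * rs O b := by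
  rw [rs_of_mem O ha, rs_of_mem O hb, rs_of_mem O (O.mul_mem _ _ ha hb), ← map_mul]
  rfl

theorem rs_neg {a : K} (ha : a ∈ O) : rs O (-a) = - rs O a := by
  rw [rs_of_mem O ha, rs_of_mem O (O.neg_mem _ ha), ← map_neg]
  rfl

theorem rs_zero : rs O 0 = 0 := by
  rw [rs_of_mem O O.zero_mem]
  exact map_zero (residue O)

theorem rs_one : rs O 1 = 1 := by
  rw [rs_of_mem O O.one_mem]
  exact map_one (residue O)

theorem rs_eq_iff (a b : K) : rs O a = rs O b ↔
    (O.valuation a ≠ 1 ∧ O.valuation b ≠ 1) ∨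
      (O.valuation a = 1 ∧ O.valuation b = 1 ∧ O.valuation (a - b) < 1) := by
  by_cases ha : O.valuation a = 1
  · by_cases hb : O.valuation b = 1
    · have ha' : a ∈ O := (O.valuation_le_one_iff a).1 ha.le
      have hb' : b ∈ O := (O.valuation_le_one_iff b).1 hb.le
      have h1 : rs O a = rs O b ↔ O.valuation (a - b) < 1 := by
        have e : rs O (a - b) = rs O a - rs O b := by
          rw [sub_eq_add_neg, rs_add O ha' (O.neg_mem _ hb'), rs_neg O hb', sub_eq_add_neg]
        rw [← sub_eq_zero, ← e, rs_zero_iff]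
        have h2 : O.valuation (a - b) ≤ 1 := (O.valuation_le_one_iff _).2 (by
          rw [sub_eq_add_neg]
          exact O.add_mem _ _ ha' (O.neg_mem _ hb'))
        exact ⟨fun h => lt_of_le_of_ne h2 h, fun h => ne_of_lt h⟩
      rw [h1]
      simp [ha, hb]
    · have h1 : rs O b = 0 := (rs_zero_iff O b).2 hb
      have h2 : rs O a ≠ 0 := fun h => (rs_zero_iff O a).1 h ha
      simp [ha, hb, h1, h2]
  · have h1 : rs O a = 0 := (rs_zero_iff O a).2 ha
    rw [h1, eq_comm, rs_zero_iff]
    simp [ha]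

theorem exists_lift (r : ResidueField O) : ∃ a ∈ O, rs O a = r := by
  obtain ⟨a, rfl⟩ := residue_surjective (R := O) r
  exact ⟨a, a.2, rs_of_mem O a.2⟩

/-- a lift of a residue -/
noncomputable def lift (r : ResidueField O) : K := (exists_lift O r).choose

theorem lift_mem (r : ResidueField O) : lift O r ∈ O := (exists_lift O r).choose_spec.1

theorem rs_lift (r : ResidueField O) : rs O (lift O r) = r := (exists_lift O r).choose_spec.2

end one

section ult
variable {K K' : Type} [Field K] [Field K'] {O : ValuationSubring K} {O' : ValuationSubring K'}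
  {π : (ℕ → K) →+* K'}

theorem pi_eq (h : Ult O O' π) (x y : ℕ → K) :
    π x = π y ↔ ∀ᶠ j in (hyperfilter ℕ : Filter ℕ), x j = y j := by
  rw [← sub_eq_zero, ← map_sub, h.zero]
  simp only [Pi.sub_apply, sub_eq_zero]

theorem pi_le (h : Ult O O' π) (x y : ℕ → K) : O'.valuation (π x) ≤ O'.valuation (π y) ↔
    ∀ᶠ j in (hyperfilter ℕ : Filter ℕ), O.valuation (x j) ≤ O.valuation (y j) := by
  classical
  rw [le_iff_exists]
  constructor
  · rintro ⟨c', hc', e⟩
    obtain ⟨c, rfl⟩ := h.surj c'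
    rw [← map_mul, pi_eq h] at e
    rw [h.mem] at hc'
    filter_upwards [hc', e] with j h1 h2
    exact (le_iff_exists O _ _).2 ⟨c j, h1, h2⟩
  · intro hj
    have hch : ∀ j, ∃ c : K, O.valuation (x j) ≤ O.valuation (y j) → c ∈ O ∧ x j = c * y j := by
      intro j
      by_cases h1 : O.valuation (x j) ≤ O.valuation (y j)
      · obtain ⟨c, hc⟩ := (le_iff_exists O _ _).1 h1
        exact ⟨c, fun _ => hc⟩
      · exact ⟨0, fun h2 => absurd h2 h1⟩
    choose c hc using hch
    refine ⟨π c, (h.mem c).2 (hj.mono fun j h1 => (hc j h1).1), ?_⟩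
    rw [← map_mul, pi_eq h]
    exact hj.mono fun j h1 => (hc j h1).2

theorem pi_veq (h : Ult O O' π) (x y : ℕ → K) : O'.valuation (π x) = O'.valuation (π y) ↔
    ∀ᶠ j in (hyperfilter ℕ : Filter ℕ), O.valuation (x j) = O.valuation (y j) := by
  rw [le_antisymm_iff, pi_le h, pi_le h, ← eventually_and]
  simp only [le_antisymm_iff]

theorem ev_not (p : ℕ → Prop) : (∀ᶠ j in (hyperfilter ℕ : Filter ℕ), ¬ p j) ↔
    ¬ ∀ᶠ j in (hyperfilter ℕ : Filter ℕ), p j := Ultrafilter.eventually_not

theorem ev_or (p q : ℕ → Prop) : (∀ᶠ j in (hyperfilter ℕ : Filter ℕ), p j ∨ q j) ↔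
    (∀ᶠ j in (hyperfilter ℕ : Filter ℕ), p j) ∨ ∀ᶠ j in (hyperfilter ℕ : Filter ℕ), q j :=
  Ultrafilter.eventually_or

theorem pi_inv (h : Ult O O' π) (x : ℕ → K) : π (fun j => (x j)⁻¹) = (π x)⁻¹ := by
  by_cases h0 : ∀ᶠ j in (hyperfilter ℕ : Filter ℕ), x j = 0
  · rw [(h.zero x).2 h0, inv_zero, h.zero]
    exact h0.mono fun j hj => by rw [hj, inv_zero]
  · have h1 : π x ≠ 0 := fun h2 => h0 ((h.zero x).1 h2)
    rw [← ev_not] at h0
    have h2 : π (fun j => (x j)⁻¹) * π x = 1 := by
      rw [← map_mul, ← map_one π, pi_eq h]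
      exact h0.mono fun j hj => inv_mul_cancel₀ hj
    exact eq_inv_of_mul_eq_one_left h2

theorem pi_one_v (h : Ult O O' π) (x : ℕ → K) : O'.valuation (π x) = 1 ↔
    ∀ᶠ j in (hyperfilter ℕ : Filter ℕ), O.valuation (x j) = 1 := by
  have h1 := pi_veq h x 1
  rw [map_one, map_one] at h1
  rw [h1]
  simp only [Pi.one_apply, map_one]

theorem pi_lt_one (h : Ult O O' π) (x : ℕ → K) : O'.valuation (π x) < 1 ↔
    ∀ᶠ j in (hyperfilter ℕ : Filter ℕ), O.valuation (x j) < 1 := by
  have h1 := pi_le h 1 x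
  rw [map_one, map_one] at h1
  rw [← not_le, h1, ← ev_not]
  simp only [Pi.one_apply, map_one, not_le]

theorem pi_rs (h : Ult O O' π) (x y : ℕ → K) : rs O' (π x) = rs O' (π y) ↔
    ∀ᶠ j in (hyperfilter ℕ : Filter ℕ), rs O (x j) = rs O (y j) := by
  simp only [rs_eq_iff]
  rw [ev_or, eventually_and, eventually_and, eventually_and, ev_not, ev_not, ← map_sub]
  simp only [Ne, pi_one_v h, pi_lt_one h]
  rfl

/-- the residue field of the ultrapower -/
noncomputable def pik (O : ValuationSubring K) (O' : ValuationSubring K') (π : (ℕ → K) →+* K')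
    (y : ℕ → ResidueField O) : ResidueField O' := rs O' (π fun j => lift O (y j))

/-- the value group of the ultrapower -/
noncomputable def piV (O : ValuationSubring K) (O' : ValuationSubring K') (π : (ℕ → K) →+* K')
    (z : ℕ → O.ValueGroup) : O'.ValueGroup := O'.valuation (π fun j => pre O (z j))

theorem pik_eq (h : Ult O O' π) (y y' : ℕ → ResidueField O) : pik O O' π y = pik O O' π y' ↔
    ∀ᶠ j in (hyperfilter ℕ : Filter ℕ), y j = y' j := by
  unfold pik
  rw [pi_rs h]
  simp only [rs_lift]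

theorem pik_rs (h : Ult O O' π) (x : ℕ → K) : pik O O' π (fun j => rs O (x j)) = rs O' (π x) := by
  unfold pik
  rw [pi_rs h]
  exact Eventually.of_forall fun j => rs_lift O _

theorem lift_mem' (h : Ult O O' π) (y : ℕ → ResidueField O) : π (fun j => lift O (y j)) ∈ O' :=
  (h.mem _).2 (Eventually.of_forall fun j => lift_mem O _)

theorem pik_surj (h : Ult O O' π) : Function.Surjective (pik O O' π) := by
  intro r
  obtain ⟨a, _, rfl⟩ := exists_lift O' r
  obtain ⟨x, rfl⟩ := h.surj a
  exact ⟨_, pik_rs h x⟩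

theorem pik_add (h : Ult O O' π) (y y' : ℕ → ResidueField O) :
    pik O O' π (fun j => y j + y' j) = pik O O' π y + pik O O' π y' := by
  have e : pik O O' π (fun j => y j + y' j) =
      pik O O' π (fun j => rs O (lift O (y j) + lift O (y' j))) := by
    rw [pik_eq h]
    refine Eventually.of_forall fun j => ?_
    rw [rs_add O (lift_mem O _) (lift_mem O _), rs_lift, rs_lift]
  rw [e, pik_rs h]
  unfold pik
  rw [← rs_add O' (lift_mem' h y) (lift_mem' h y'), ← map_add]
  rfl

theorem pik_mul (h : Ult O O' π) (y y' : ℕ → ResidueField O) :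
    pik O O' π (fun j => y j * y' j) = pik O O' π y * pik O O' π y' := by
  have e : pik O O' π (fun j => y j * y' j) =
      pik O O' π (fun j => rs O (lift O (y j) * lift O (y' j))) := by
    rw [pik_eq h]
    refine Eventually.of_forall fun j => ?_
    rw [rs_mul O (lift_mem O _) (lift_mem O _), rs_lift, rs_lift]
  rw [e, pik_rs h]
  unfold pik
  rw [← rs_mul O' (lift_mem' h y) (lift_mem' h y'), ← map_mul]
  rfl

theorem pik_neg (h : Ult O O' π) (y : ℕ → ResidueField O) :
    pik O O' π (fun j => - y j) = - pik O O' π y := by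
  have e : pik O O' π (fun j => - y j) = pik O O' π (fun j => rs O (- lift O (y j))) := by
    rw [pik_eq h]
    refine Eventually.of_forall fun j => ?_
    rw [rs_neg O (lift_mem O _), rs_lift]
  rw [e, pik_rs h]
  unfold pik
  rw [← rs_neg O' (lift_mem' h y), ← map_neg]
  rfl

theorem pik_zero (h : Ult O O' π) : pik O O' π (fun _ => 0) = 0 := by
  have e : pik O O' π (fun _ => 0) = pik O O' π (fun j => rs O ((0 : ℕ → K) j)) := by
    rw [pik_eq h]
    exact Eventually.of_forall fun j => (rs_zero O).symm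
  rw [e, pik_rs h, map_zero, rs_zero]

theorem pik_one (h : Ult O O' π) : pik O O' π (fun _ => 1) = 1 := by
  have e : pik O O' π (fun _ => 1) = pik O O' π (fun j => rs O ((1 : ℕ → K) j)) := by
    rw [pik_eq h]
    exact Eventually.of_forall fun j => (rs_one O).symm
  rw [e, pik_rs h, map_one, rs_one]

theorem piV_val (h : Ult O O' π) (x : ℕ → K) :
    piV O O' π (fun j => O.valuation (x j)) = O'.valuation (π x) := by
  unfold piV
  rw [pi_veq h]
  exact Eventually.of_forall fun j => pre_spec O _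

theorem piV_le (h : Ult O O' π) (z z' : ℕ → O.ValueGroup) : piV O O' π z ≤ piV O O' π z' ↔
    ∀ᶠ j in (hyperfilter ℕ : Filter ℕ), z j ≤ z' j := by
  unfold piV
  rw [pi_le h]
  simp only [pre_spec]

theorem piV_eq (h : Ult O O' π) (z z' : ℕ → O.ValueGroup) : piV O O' π z = piV O O' π z' ↔
    ∀ᶠ j in (hyperfilter ℕ : Filter ℕ), z j = z' j := by
  unfold piV
  rw [pi_veq h]
  simp only [pre_spec]

theorem piV_surj (h : Ult O O' π) : Function.Surjective (piV O O' π) := by
  intro γ
  obtain ⟨a, rfl⟩ := O'.valuation_surjective γ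
  obtain ⟨x, rfl⟩ := h.surj a
  exact ⟨_, piV_val h x⟩

theorem piV_mul (h : Ult O O' π) (z z' : ℕ → O.ValueGroup) :
    piV O O' π (fun j => z j * z' j) = piV O O' π z * piV O O' π z' := by
  have e : piV O O' π (fun j => z j * z' j) =
      piV O O' π (fun j => O.valuation (((fun j => pre O (z j)) * fun j => pre O (z' j)) j)) := by
    rw [piV_eq h]
    refine Eventually.of_forall fun j => ?_
    rw [Pi.mul_apply, map_mul, pre_spec, pre_spec]
  rw [e, piV_val h, map_mul, map_mul]
  rfl

theorem piV_inv (h : Ult O O' π) (z : ℕ → O.ValueGroup) :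
    piV O O' π (fun j => (z j)⁻¹) = (piV O O' π z)⁻¹ := by
  have e : piV O O' π (fun j => (z j)⁻¹) =
      piV O O' π (fun j => O.valuation ((fun j => (pre O (z j))⁻¹) j)) := by
    rw [piV_eq h]
    refine Eventually.of_forall fun j => ?_
    simp only
    rw [map_inv₀, pre_spec]
  rw [e, piV_val h, pi_inv h, map_inv₀]
  rfl

theorem piV_zero (h : Ult O O' π) : piV O O' π (fun _ => 0) = 0 := by
  have e : piV O O' π (fun _ => 0) = piV O O' π (fun j => O.valuation ((0 : ℕ → K) j)) := by
    rw [piV_eq h]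
    refine Eventually.of_forall fun j => ?_
    rw [Pi.zero_apply, map_zero]
  rw [e, piV_val h, map_zero, map_zero]

theorem piV_one (h : Ult O O' π) : piV O O' π (fun _ => 1) = 1 := by
  have e : piV O O' π (fun _ => 1) = piV O O' π (fun j => O.valuation ((1 : ℕ → K) j)) := by
    rw [piV_eq h]
    refine Eventually.of_forall fun j => ?_
    rw [Pi.one_apply, map_one]
  rw [e, piV_val h, map_one, map_one]

theorem piV_ne_zero (h : Ult O O' π) (γ : ℕ → O.ValueGroupˣ) :
    piV O O' π (fun j => (γ j : O.ValueGroup)) ≠ 0 := by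
  rw [← piV_zero h, Ne, piV_eq h]
  intro h1
  obtain ⟨j, hj⟩ := h1.exists
  exact (γ j).ne_zero hj

/-- units -/
noncomputable def piG (h : Ult O O' π) (γ : ℕ → O.ValueGroupˣ) : O'.ValueGroupˣ :=
  Units.mk0 (piV O O' π fun j => (γ j : O.ValueGroup)) (piV_ne_zero h γ)

theorem piG_val (h : Ult O O' π) (γ : ℕ → O.ValueGroupˣ) :
    ((piG h γ : O'.ValueGroupˣ) : O'.ValueGroup) = piV O O' π fun j => (γ j : O.ValueGroup) := rfl

theorem piG_eq (h : Ult O O' π) (γ δ : ℕ → O.ValueGroupˣ) : piG h γ = piG h δ ↔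
    ∀ᶠ j in (hyperfilter ℕ : Filter ℕ), γ j = δ j := by
  rw [← Units.val_inj, piG_val, piG_val, piV_eq h]
  simp only [Units.val_inj]

theorem piG_le (h : Ult O O' π) (γ δ : ℕ → O.ValueGroupˣ) : piG h γ ≤ piG h δ ↔
    ∀ᶠ j in (hyperfilter ℕ : Filter ℕ), γ j ≤ δ j := by
  rw [← Units.val_le_val, piG_val, piG_val, piV_le h]
  simp only [Units.val_le_val]

theorem piG_surj (h : Ult O O' π) : Function.Surjective (piG h) := by
  classical
  intro γ
  obtain ⟨z, hz⟩ := piV_surj h (γ : O'.ValueGroup)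
  refine ⟨fun j => if hj : z j ≠ 0 then Units.mk0 (z j) hj else 1, ?_⟩
  apply Units.ext
  rw [piG_val, ← hz, piV_eq h]
  have h1 : ¬ ∀ᶠ j in (hyperfilter ℕ : Filter ℕ), z j = 0 := by
    intro h2
    have h3 : piV O O' π z = piV O O' π (fun _ => 0) := (piV_eq h _ _).2 h2
    rw [piV_zero h, hz] at h3
    exact γ.ne_zero h3
  rw [← ev_not] at h1
  refine h1.mono fun j hj => ?_
  rw [dif_pos hj]
  rfl

theorem piG_mul (h : Ult O O' π) (γ δ : ℕ → O.ValueGroupˣ) :
    piG h (fun j => γ j * δ j) = piG h γ * piG h δ := by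
  apply Units.ext
  rw [Units.val_mul, piG_val, piG_val, piG_val, ← piV_mul h]
  rfl

theorem piG_inv (h : Ult O O' π) (γ : ℕ → O.ValueGroupˣ) :
    piG h (fun j => (γ j)⁻¹) = (piG h γ)⁻¹ := by
  apply Units.ext
  rw [Units.val_inv_eq_inv_val, piG_val, piG_val, ← piV_inv h]
  congr 1
  funext j
  rw [Units.val_inv_eq_inv_val]

theorem piG_one (h : Ult O O' π) : piG h (fun _ => 1) = 1 := by
  apply Units.ext
  rw [piG_val]
  simp only [Units.val_one]
  exact piV_one h

/-! ### terms -/

theorem ft_pik (h : Ult O O' π) {Y : Type} (e : Y → ℕ → ResidueField O) (t : FT Y) :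
    t.eval (fun y => pik O O' π (e y)) = pik O O' π fun j => t.eval fun y => e y j := by
  induction t with
  | var y => rfl
  | zero => exact (pik_zero h).symm
  | one => exact (pik_one h).symm
  | add s t hs ht =>
    simp only [FT.eval]
    rw [hs, ht, ← pik_add h]
  | neg s hs =>
    simp only [FT.eval]
    rw [hs, ← pik_neg h]
  | mul s t hs ht =>
    simp only [FT.eval]
    rw [hs, ht, ← pik_mul h]

theorem ft_pi (π : (ℕ → K) →+* K') {X : Type} (e : X → ℕ → K) (t : FT X) :
    t.eval (fun y => π (e y)) = π fun j => t.eval fun y => e y j := by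
  induction t with
  | var y => rfl
  | zero => exact (map_zero π).symm
  | one => exact (map_one π).symm
  | add s t hs ht =>
    simp only [FT.eval]
    rw [hs, ht, ← map_add]
    rfl
  | neg s hs =>
    simp only [FT.eval]
    rw [hs, ← map_neg]
    rfl
  | mul s t hs ht =>
    simp only [FT.eval]
    rw [hs, ht, ← map_mul]
    rfl

theorem gt_piG (h : Ult O O' π) {Z : Type} (e : Z → ℕ → O.ValueGroupˣ) (t : GT Z) :
    t.eval (fun y => piG h (e y)) = piG h fun j => t.eval fun y => e y j := by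
  induction t with
  | var y => rfl
  | zero => exact (piG_one h).symm
  | add s t hs ht =>
    simp only [GT.eval]
    rw [hs, ht, ← piG_mul h]
  | neg s hs =>
    simp only [GT.eval]
    rw [hs, ← piG_inv h]

theorem rt_pik (h : Ult O O' π) {X Y : Type} (x : X → ℕ → K) (y : Y → ℕ → ResidueField O) (t : RT X Y) :
    t.eval O' (fun i => π (x i)) (fun i => pik O O' π (y i)) =
      pik O O' π fun j => t.eval O (fun i => x i j) (fun i => y i j) := by
  induction t with
  | var y => rfl
  | zero => exact (pik_zero h).symm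
  | one => exact (pik_one h).symm
  | add s t hs ht =>
    simp only [RT.eval]
    rw [hs, ht, ← pik_add h]
  | neg s hs =>
    simp only [RT.eval]
    rw [hs, ← pik_neg h]
  | mul s t hs ht =>
    simp only [RT.eval]
    rw [hs, ht, ← pik_mul h]
  | res s =>
    simp only [RT.eval]
    rw [ft_pi, pik_rs h]

theorem vt_piV (h : Ult O O' π) {X Z : Type} (x : X → ℕ → K) (z : Z → ℕ → O.ValueGroup) (t : VT X Z) :
    t.eval O' (fun i => π (x i)) (fun i => piV O O' π (z i)) =
      piV O O' π fun j => t.eval O (fun i => x i j) (fun i => z i j) := by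
  induction t with
  | var y => rfl
  | zero => exact (piV_one h).symm
  | infty => exact (piV_zero h).symm
  | add s t hs ht =>
    simp only [VT.eval]
    rw [hs, ht, ← piV_mul h]
  | neg s hs =>
    simp only [VT.eval]
    rw [hs, ← piV_inv h]
  | val s =>
    simp only [VT.eval]
    rw [ft_pi, piV_val h]

theorem star_k (h : Ult O O' π) :
    Star (RQ.holds (ResidueField O)) (RQ.holds (ResidueField O')) (pik O O' π) := by
  refine ⟨pik_surj h, ?_⟩
  intro Y φ e
  induction φ with
  | eq s t =>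
    simp only [RQ.holds]
    rw [ft_pik h, ft_pik h, pik_eq h]
  | not φ hφ =>
    simp only [RQ.holds]
    rw [hφ, ev_not]
  | and φ ψ hφ hψ =>
    simp only [RQ.holds]
    rw [hφ, hψ, eventually_and]
  | or φ ψ hφ hψ =>
    simp only [RQ.holds]
    rw [hφ, hψ, ev_or]

theorem star_G (h : Ult O O' π) :
    Star (GQ.holds O.ValueGroupˣ) (GQ.holds O'.ValueGroupˣ) (piG h) := by
  refine ⟨piG_surj h, ?_⟩
  intro Y φ e
  induction φ with
  | eq s t =>
    simp only [GQ.holds]
    rw [gt_piG h, gt_piG h, piG_eq h]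
  | le s t =>
    simp only [GQ.holds]
    rw [gt_piG h, gt_piG h, piG_le h]
  | not φ hφ =>
    simp only [GQ.holds]
    rw [hφ, ev_not]
  | and φ ψ hφ hψ =>
    simp only [GQ.holds]
    rw [hφ, hψ, eventually_and]
  | or φ ψ hφ hψ =>
    simp only [GQ.holds]
    rw [hφ, hψ, ev_or]

theorem los0 (h : Ult O O' π) {X Y Z : Type} (φ : Q3 X Y Z) (x : X → ℕ → K)
    (y : Y → ℕ → ResidueField O) (z : Z → ℕ → O.ValueGroup) :
    Q3.Holds O' (fun i => π (x i)) (fun i => pik O O' π (y i)) (fun i => piV O O' π (z i)) φ ↔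
      ∀ᶠ j in (hyperfilter ℕ : Filter ℕ), Q3.Holds O (fun i => x i j) (fun i => y i j) (fun i => z i j) φ := by
  induction φ with
  | eqF s t =>
    simp only [Q3.Holds]
    rw [ft_pi, ft_pi, pi_eq h]
  | eqR s t =>
    simp only [Q3.Holds]
    rw [rt_pik h, rt_pik h, pik_eq h]
  | eqV s t =>
    simp only [Q3.Holds]
    rw [vt_piV h, vt_piV h, piV_eq h]
  | leV s t =>
    simp only [Q3.Holds]
    rw [vt_piV h, vt_piV h, piV_le h]
  | not φ hφ =>
    simp only [Q3.Holds]
    rw [hφ, ev_not]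
  | and φ ψ hφ hψ =>
    simp only [Q3.Holds]
    rw [hφ, hψ, eventually_and]
  | or φ ψ hφ hψ =>
    simp only [Q3.Holds]
    rw [hφ, hψ, ev_or]

end ult

theorem t_URES : S_URES := by
  intro K K' _ _ O O' π h
  exact ⟨pik O O' π, piG h, piV O O' π, star_k h, star_G h, piV_surj h,
    fun X Y Z φ x y z => los0 h φ x y z⟩

end Pool.Agent.U364.AK
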